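import Pool.Agent.Helper12.TH.BT

/-! # Row BI of the project TH -/

set_option linter.unusedSectionVars false

namespace TH12

open TH MvPolynomial Finset

/-- subsets of `Fin (m + 1)` -/
theorem pcard_succ {V : Type*} [AddCommMonoid V] (m r : ℕ) (g : Finset (Fin (m + 1)) → V) :
    ∑ R ∈ powersetCard (r + 1) (univ : Finset (Fin (m + 1))), g R
      = ∑ R ∈ powersetCard (r + 1) (univ : Finset (Fin m)), g (R.map (Fin.succEmb m))
        + ∑ R ∈ powersetCard r (univ : Finset (Fin m)),
            g (insert 0 (R.map (Fin.succEmb m))) := by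
  classical
  have h0 : (0 : Fin (m + 1)) ∉ (univ : Finset (Fin m)).map (Fin.succEmb m) := by
    simp [Fin.succ_ne_zero]
  have h1 : (univ : Finset (Fin (m + 1))) = insert 0 ((univ : Finset (Fin m)).map (Fin.succEmb m)) := by
    ext i
    refine Fin.cases ?_ (fun i => ?_) i
    · simp
    · simp
  rw [h1, Finset.powersetCard_succ_insert h0, Finset.sum_union]
  · rw [Finset.powersetCard_map, Finset.sum_map, Finset.sum_image, Finset.powersetCard_map,
      Finset.sum_map]
    · rfl
    · intro S hS T hT hST
      have hS' : (0 : Fin (m + 1)) ∉ S := fun h => h0 ((Finset.mem_powersetCard.1 hS).1 h)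
      have hT' : (0 : Fin (m + 1)) ∉ T := fun h => h0 ((Finset.mem_powersetCard.1 hT).1 h)
      have := congrArg (fun U => U.erase 0) hST
      simpa [Finset.erase_insert hS', Finset.erase_insert hT'] using this
  · rw [Finset.disjoint_left]
    intro S hS hT
    rw [Finset.mem_image] at hT
    obtain ⟨T, hT, rfl⟩ := hT
    exact h0 ((Finset.mem_powersetCard.1 hS).1 (Finset.mem_insert_self _ _))

variable (K : Type*) [Field K] [CharZero K]

theorem Hn_BS (h1 : ST_CS K) {q t : K} (hG : Gn q t) {b : Module.Basis Par K (Sy K)}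
    (hB : MB q t b) (k β : ℕ) :
    Hn q t b (k + 1) * BS q t β = BS q t β * Hn q t b (k + 1) + Hn q t b k * BS q t (β + 1) := by
  obtain ⟨-, hH, -, -, -, hH0, -⟩ := h1 q t hG b hB
  rcases Nat.eq_zero_or_pos β with rfl | hβ
  · rw [BS, if_pos rfl, BS, if_neg (by omega), mul_sub, sub_mul, hH]
    simp only [mul_one, one_mul]
    abel
  · rw [BS, if_neg (by omega), BS, if_neg (by omega)]
    exact hH k β

theorem Hn_BS_sum (h1 : ST_CS K) {q t : K} (hG : Gn q t) {b : Module.Basis Par K (Sy K)}
    (hB : MB q t b) (k : ℕ) : ∀ β : ℕ,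
    Hn q t b k * BS q t β = ∑ i ∈ range (k + 1), BS q t (β + i) * Hn q t b (k - i) := by
  induction k with
  | zero =>
    intro β
    obtain ⟨-, -, -, -, -, hH0, -⟩ := h1 q t hG b hB
    simp [hH0]
  | succ k ih =>
    intro β
    rw [Hn_BS K h1 hG hB, ih, Finset.sum_range_succ' _ (k + 1), add_comm]
    congr 1
    refine Finset.sum_congr rfl fun i _ => ?_
    rw [show β + (i + 1) = β + 1 + i by ring, show k + 1 - (i + 1) = k - i by omega]

theorem En_BS (h1 : ST_CS K) {q t : K} (hG : Gn q t) {b : Module.Basis Par K (Sy K)}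
    (hB : MB q t b) (r β : ℕ) :
    En q t b (r + 1) * BS q t β = BS q t β * En q t b (r + 1) + BS q t (β + 1) * En q t b r := by
  obtain ⟨-, -, -, hE, -, -, -⟩ := h1 q t hG b hB
  rcases Nat.eq_zero_or_pos β with rfl | hβ
  · rw [BS, if_pos rfl, BS, if_neg (by omega), mul_sub, sub_mul, hE]
    simp only [mul_one, one_mul]
    abel
  · rw [BS, if_neg (by omega), BS, if_neg (by omega)]
    exact hE r β

theorem Hn_one {q t : K} {b : Module.Basis Par K (Sy K)} (hB : MB q t b) (k : ℕ) :
    Hn q t b k 1 = if k = 0 then 1 else 0 := by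
  have h3 := b_P0 K hB.toIsE
  rw [← h3, Hn, dg_apply_basis]
  cases k with
  | zero => simp
  | succ k =>
    have h4 : (fun j => Ps q t P0 j) = fun _ => (0 : K) := by
      funext j
      exact Ps_P0 q t j
    rw [h4, hc_zero_fun]
    simp

theorem En_one {q t : K} {b : Module.Basis Par K (Sy K)} (hB : MB q t b) (k : ℕ) :
    En q t b k 1 = if k = 0 then 1 else 0 := by
  have h3 := b_P0 K hB.toIsE
  rw [← h3, En, dg_apply_basis]
  cases k with
  | zero => simp
  | succ k =>
    have h4 : (fun j => (-1 : K) ^ j * Ps q t P0 j) = fun _ => (0 : K) := by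
      funext j
      rw [Ps_P0 q t j, mul_zero]
    rw [h4, hc_zero_fun]
    simp

theorem Hn_Bm (h1 : ST_CS K) {q t : K} (hG : Gn q t) {b : Module.Basis Par K (Sy K)}
    (hB : MB q t b) (m : ℕ) : ∀ (k : ℕ) (a : Fin m → ℕ),
    Hn q t b k (Bm q t m a 1)
      = ∑ γ ∈ piAntidiag (univ : Finset (Fin m)) k, Bm q t m (fun i => a i + γ i) 1 := by
  induction m with
  | zero =>
    intro k a
    rw [Bm_zero, Module.End.one_apply, Hn_one K hB, piA_fin0]
    split_ifs with hk
    · rw [Finset.sum_singleton, Bm_zero, Module.End.one_apply]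
    · rw [Finset.sum_empty]
  | succ m ih =>
    intro k a
    rw [Bm_succ, Module.End.mul_apply, ← Module.End.mul_apply, Hn_BS_sum K h1 hG hB,
      LinearMap.sum_apply, piA_succ, Finset.Nat.sum_antidiagonal_eq_sum_range_succ_mk]
    refine Finset.sum_congr rfl fun i _ => ?_
    rw [Module.End.mul_apply, ih, map_sum]
    refine Finset.sum_congr rfl fun γ _ => ?_
    rw [Bm_succ, Module.End.mul_apply]
    simp only [Fin.cons_zero, Fin.cons_succ]

theorem En_Bm (h1 : ST_CS K) {q t : K} (hG : Gn q t) {b : Module.Basis Par K (Sy K)}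
    (hB : MB q t b) (m : ℕ) : ∀ (r : ℕ) (a : Fin m → ℕ),
    En q t b r (Bm q t m a 1)
      = ∑ R ∈ powersetCard r (univ : Finset (Fin m)),
          Bm q t m (fun i => a i + (if i ∈ R then 1 else 0)) 1 := by
  have hE0 := (h1 q t hG b hB).2.2.2.2.2.2
  induction m with
  | zero =>
    intro r a
    rw [Bm_zero, Module.End.one_apply, En_one K hB,
      show (univ : Finset (Fin 0)) = ∅ from Finset.univ_eq_empty]
    split_ifs with hk
    · subst hk
      rw [Finset.powersetCard_zero, Finset.sum_singleton, Bm_zero, Module.End.one_apply]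
    · rw [Finset.powersetCard_eq_empty.2 (by rw [Finset.card_empty]; omega), Finset.sum_empty]
  | succ m ih =>
    intro r a
    cases r with
    | zero =>
      rw [hE0, Finset.powersetCard_zero, Finset.sum_singleton]
      simp
    | succ r =>
      rw [Bm_succ, Module.End.mul_apply, ← Module.End.mul_apply, En_BS K h1 hG hB,
        LinearMap.add_apply, Module.End.mul_apply, Module.End.mul_apply, ih, ih, pcard_succ,
        map_sum, map_sum]
      congr 1
      · refine Finset.sum_congr rfl fun R _ => ?_
        rw [Bm_succ, Module.End.mul_apply]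
        congr 2
        · simp [Fin.succ_ne_zero]
        · congr 2
          funext i
          simp
      · refine Finset.sum_congr rfl fun R _ => ?_
        rw [Bm_succ, Module.End.mul_apply]
        congr 2
        · simp
        · congr 2
          funext i
          simp [Fin.succ_ne_zero]

theorem st_BI (h1 : ST_CS K) : ST_BI K := by
  intro q t hG b hB m a r k
  rw [Module.End.mul_apply, Module.End.mul_apply, Hn_Bm K h1 hG hB, map_sum, Finset.sum_comm]
  refine Finset.sum_congr rfl fun γ _ => ?_
  rw [En_Bm K h1 hG hB]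
  refine Finset.sum_congr rfl fun R _ => ?_
  congr 2
  funext i
  ring

end TH12
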