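import Pool.Agent.Helper86.TH.Stmts

/-! # Rows BM, CO, CS, PP, NA of the project TH -/

set_option linter.unusedSectionVars false

namespace TH12

open TH MvPolynomial Finset

variable (K : Type*) [Field K] [CharZero K]

theorem st_BM : ST_BM K := by
  intro q t hG b hE μ d hd s
  have hM : Mj q t 0 ≠ 0 := hG.Mj_ne 0
  have hDel := Del_eq_dg hE hM
  induction s with
  | zero =>
    rw [Bn, mu_apply, hd]
    simp
  | succ s ih =>
    rw [Bn, LinearMap.sub_apply, Module.End.mul_apply, Module.End.mul_apply, ih, hDel,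
      dg_apply_basis, map_smul, ih, map_sum, Finset.smul_sum, ← Finset.sum_sub_distrib]
    refine Finset.sum_congr rfl fun i hi => ?_
    rw [map_smul, dg_apply_basis, Ps_up q t (mem_ads.1 hi), smul_smul, smul_smul, ← sub_smul]
    congr 1
    ring

theorem hc_up (q t : K) {μ : Par} {i : ℕ} (h : Adb μ i) (a c : ℕ → K) (k : ℕ) :
    hc (fun j => a j * Ps q t (up μ i) j + c j) k
      = ∑ r ∈ range (k + 1), (zc q t μ i ^ r * hc a r)
          * hc (fun j => a j * Ps q t μ j + c j) (k - r) := by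
  have h1 : (fun j => a j * Ps q t (up μ i) j + c j)
      = fun j => (zc q t μ i ^ (j + 1) * a j) + (a j * Ps q t μ j + c j) := by
    funext j
    rw [Ps_up q t h]
    ring
  rw [h1, hc_add_range]
  refine Finset.sum_congr rfl fun r _ => ?_
  rw [hc_scale]

theorem st_CO (h1 : ST_BM K) : ST_CO K := by
  intro q t hG b hB a c k s
  refine b.ext fun μ => ?_
  obtain ⟨d, hd, -, -⟩ := hB.pieri μ
  have hBM := h1 q t hG b hB.toIsE μ d hd
  rw [Module.End.mul_apply, hBM, map_sum, LinearMap.sum_apply]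
  simp only [LinearMap.smul_apply, Module.End.mul_apply, dg_apply_basis, map_smul, hBM]
  have h2 : ∀ i ∈ ads μ, (d i * zc q t μ i ^ s) •
      hc (fun j => a j * Ps q t (up μ i) j + c j) k • b (up μ i)
      = ∑ r ∈ range (k + 1), (hc a r * (hc (fun j => a j * Ps q t μ j + c j) (k - r)
          * (d i * zc q t μ i ^ (s + r)))) • b (up μ i) := by
    intro i hi
    rw [hc_up K q t (mem_ads.1 hi), smul_smul, Finset.mul_sum, Finset.sum_smul]
    refine Finset.sum_congr rfl fun r _ => ?_
    congr 1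
    rw [pow_add]
    ring
  rw [Finset.sum_congr rfl h2, Finset.sum_comm]
  refine Finset.sum_congr rfl fun r _ => ?_
  rw [Finset.smul_sum, Finset.smul_sum]
  refine Finset.sum_congr rfl fun i _ => ?_
  rw [smul_smul, smul_smul, mul_assoc]

theorem hc_negone (k : ℕ) :
    hc (fun _ => (-1 : K)) k = if k = 0 then 1 else if k = 1 then -1 else 0 := by
  have h : (fun _ : ℕ => (-1 : K)) = fun j => -((1 : K) ^ (j + 1)) := by
    funext j; simp
  rw [h]
  match k with
  | 0 => simp
  | 1 => rw [hc_neg_geom_one]; simp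
  | (n + 2) => rw [hc_neg_geom_two]; simp

theorem hc_altone (k : ℕ) :
    hc (fun j => ((-1 : K)) ^ j) k = if k = 0 then 1 else if k = 1 then 1 else 0 := by
  have h : (fun j : ℕ => ((-1 : K)) ^ j) = fun j => -((-1 : K) ^ (j + 1)) := by
    funext j; rw [pow_succ]; ring
  rw [h]
  match k with
  | 0 => simp
  | 1 => rw [hc_neg_geom_one]; simp
  | (n + 2) => rw [hc_neg_geom_two]; simp

theorem hc_constone (k : ℕ) : hc (fun _ => (1 : K)) k = 1 := by
  have h : (fun _ : ℕ => (1 : K)) = fun j => ((1 : K) ^ (j + 1)) := by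
    funext j; simp
  rw [h, hc_geom]
  simp

/-- a sum with two terms -/
theorem sum_two {V : Type*} [AddCommGroup V] [Module K V] (c : ℕ → K) (f : ℕ → V) (k : ℕ)
    (h : ∀ i, c (i + 2) = 0) :
    ∑ i ∈ range (k + 1 + 1), c i • f i = c 0 • f 0 + c 1 • f 1 := by
  rw [Finset.sum_range_succ', Finset.sum_range_succ', Finset.sum_eq_zero]
  · rw [zero_add, add_comm]
  · intro i _
    rw [h i, zero_smul]

theorem st_CS (h1 : ST_CO K) : ST_CS K := by
  intro q t hG b hB
  have hN : ∀ k, Nn q t b k = dg b (fun μ => hc (fun j => (-1 : K) * Ps q t μ j + 0) k) := by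
    intro k
    rw [Nn]
    congr 1
    funext μ
    congr 1
    funext j
    ring
  have hH : ∀ k, Hn q t b k = dg b (fun μ => hc (fun j => (1 : K) * Ps q t μ j + 0) k) := by
    intro k
    rw [Hn]
    congr 1
    funext μ
    congr 1
    funext j
    ring
  have hE : ∀ k, En q t b k = dg b (fun μ => hc (fun j => (-1 : K) ^ j * Ps q t μ j + 0) k) := by
    intro k
    rw [En]
    congr 1
    funext μ
    congr 1
    funext j
    ring
  refine ⟨fun k s => ?_, fun k s => ?_, fun k => ?_, fun k s => ?_, ?_, ?_, ?_⟩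
  · have h2 := h1 q t hG b hB (fun _ => -1) (fun _ => 0) (k + 1) s
    have h3 := h2.trans (sum_two K (fun i => hc (fun _ => (-1 : K)) i)
      (fun i => Bn q t (s + i) * dg b (fun μ => hc (fun j => (-1 : K) * Ps q t μ j + 0) (k + 1 - i)))
      k (fun i => by rw [hc_negone]; simp))
    simp only [hc_negone, ← hN] at h3
    rw [h3]
    simp [sub_eq_add_neg]
  · have h2 := h1 q t hG b hB (fun _ => 1) (fun _ => 0) (k + 1) s
    have h3 := h1 q t hG b hB (fun _ => 1) (fun _ => 0) k (s + 1)
    simp only [hc_constone, ← hH, one_smul] at h2 h3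
    rw [h2, h3, Finset.sum_range_succ', add_comm]
    congr 1
    refine Finset.sum_congr rfl fun i _ => ?_
    rw [show s + (i + 1) = s + 1 + i by ring, show k + 1 - (i + 1) = k - i by omega]
  · simp only [Nn, Hn, dg_mul]
    rw [dg_sum]
    have h2 : (fun μ : Par => ∑ p ∈ antidiagonal k, hc (fun j => -(Ps q t μ j)) p.1
        * hc (fun j => Ps q t μ j) p.2) = fun _ => if k = 0 then (1 : K) else 0 := by
      funext μ
      exact hc_neg_conv _ k
    rw [h2]
    split_ifs with hk
    · exact dg_one b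
    · refine b.ext fun μ => ?_
      rw [dg_apply_basis]
      simp
  · have h2 := h1 q t hG b hB (fun j => (-1) ^ j) (fun _ => 0) (k + 1) s
    have h3 := h2.trans (sum_two K (fun i => hc (fun j => (-1 : K) ^ j) i)
      (fun i => Bn q t (s + i)
        * dg b (fun μ => hc (fun j => (-1 : K) ^ j * Ps q t μ j + 0) (k + 1 - i)))
      k (fun i => by rw [hc_altone]; simp))
    simp only [hc_altone, ← hE] at h3
    rw [h3]
    simp
  · simp [Nn, dg_one]
  · simp [Hn, dg_one]
  · simp [En, dg_one]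

theorem st_PP (h1 : ST_BM K) : ST_PP K := by
  intro q t hG b hB s F
  have key : (ep (0 : K)).toLinearMap ∘ₗ (Bn q t (s + 1))
      = (ep (0 : K)).toLinearMap ∘ₗ
        (dg b (fun μ => hc (fun j => 1 - Mj q t j * Ps q t μ j) s)) := by
    refine b.ext fun μ => ?_
    obtain ⟨d, hd, -, hr⟩ := hB.pieri μ
    have hBM := h1 q t hG b hB.toIsE μ d hd (s + 1)
    rw [LinearMap.comp_apply, LinearMap.comp_apply, hBM, dg_apply_basis, map_sum, map_smul,
      AlgHom.toLinearMap_apply, hB.eps μ, ← hr s, smul_eq_mul, mul_one]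
    refine Finset.sum_congr rfl fun i _ => ?_
    rw [map_smul, AlgHom.toLinearMap_apply, hB.eps, smul_eq_mul, mul_one]
  have h2 := congrArg (fun g => g F) key
  exact h2

theorem cprod_qt_ne (q t : K) (hG : Gn q t) (μ : Par) :
    cprod μ (fun i j => q ^ j * t ^ i) ≠ 0 := by
  rw [cprod]
  refine Finset.prod_ne_zero_iff.2 fun i _ => Finset.prod_ne_zero_iff.2 fun j _ => ?_
  exact mul_ne_zero (pow_ne_zero _ hG.q0) (pow_ne_zero _ hG.t0)

theorem st_NA (h1 : ST_BM K) : ST_NA K := by
  intro q t hG b hB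
  refine ⟨?_, ?_, ?_, fun s => ?_⟩
  · rw [nab, nabi, dg_mul, ← dg_one b]
    congr 1
    funext μ
    exact mul_inv_cancel₀ (cprod_qt_ne K q t hG μ)
  · rw [nab, nabi, dg_mul, ← dg_one b]
    congr 1
    funext μ
    exact inv_mul_cancel₀ (cprod_qt_ne K q t hG μ)
  · rw [Dk_zero_eq_dg hB.toIsE, nab, dg_comm]
  · refine b.ext fun μ => ?_
    obtain ⟨d, hd, -, -⟩ := hB.pieri μ
    have hBM := h1 q t hG b hB.toIsE μ d hd
    rw [Module.End.mul_apply, Module.End.mul_apply, nab, dg_apply_basis, map_smul, hBM, hBM,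
      map_sum, Finset.smul_sum]
    refine Finset.sum_congr rfl fun i hi => ?_
    rw [map_smul, dg_apply_basis, cprod_up (mem_ads.1 hi), smul_smul, smul_smul]
    congr 1
    rw [zc, pow_succ]
    ring

end TH12
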