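import Pool.Agent.Helper86.TH.Stmts

/-! # Rows BT, BI of the project TH -/

set_option linter.unusedSectionVars false

namespace TH12

open TH MvPolynomial Finset

/-- compositions with `m + 1` parts: the first part and the rest -/
theorem piA_succ {V : Type*} [AddCommMonoid V] (m y : ℕ) (g : (Fin (m + 1) → ℕ) → V) :
    ∑ j ∈ piAntidiag (univ : Finset (Fin (m + 1))) y, g j
      = ∑ p ∈ antidiagonal y, ∑ j' ∈ piAntidiag (univ : Finset (Fin m)) p.2,
          g (Fin.cons p.1 j' : Fin (m + 1) → ℕ) := by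
  rw [Finset.sum_sigma' (antidiagonal y) (fun p => piAntidiag (univ : Finset (Fin m)) p.2)
    (fun p j' => g (Fin.cons p.1 j' : Fin (m + 1) → ℕ))]
  refine Finset.sum_bij' (fun j _ => ⟨(j 0, ∑ i : Fin m, j i.succ), fun i => j i.succ⟩)
    (fun p _ => (Fin.cons p.1.1 p.2 : Fin (m + 1) → ℕ)) ?_ ?_ ?_ ?_ ?_
  · intro j hj
    rw [mem_piAntidiag] at hj
    rw [Finset.mem_sigma, HasAntidiagonal.mem_antidiagonal, mem_piAntidiag]
    refine ⟨?_, rfl, fun i _ => Finset.mem_univ i⟩
    rw [← hj.1, Fin.sum_univ_succ]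
  · rintro ⟨p, j'⟩ hp
    rw [Finset.mem_sigma, HasAntidiagonal.mem_antidiagonal, mem_piAntidiag] at hp
    rw [mem_piAntidiag]
    refine ⟨?_, fun i _ => Finset.mem_univ i⟩
    rw [Fin.sum_univ_succ]
    simp only [Fin.cons_zero, Fin.cons_succ]
    have h2 := hp.2.1
    have h1 := hp.1
    simp only at h1 h2
    rw [h2, h1]
  · intro j hj
    funext i
    refine Fin.cases ?_ (fun i => ?_) i
    · simp
    · simp
  · rintro ⟨⟨p1, p2⟩, j'⟩ hp
    rw [Finset.mem_sigma, HasAntidiagonal.mem_antidiagonal, mem_piAntidiag] at hp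
    have h2 := hp.2.1
    simp only at h2
    simp only [Fin.cons_zero, Fin.cons_succ, h2]
  · intro j hj
    congr 1
    funext i
    refine Fin.cases ?_ (fun i => ?_) i
    · simp
    · simp

variable (K : Type*) [Field K] [CharZero K]

/-- the eigenvector of the empty partition is `1` -/
theorem b_P0 {q t : K} {b : Par → Sy K} (h : IsE q t b) : b P0 = 1 := by
  have h1 := h.hom P0
  rw [card_P0] at h1
  have h2 : b P0 = C (coeff 0 (b P0)) := by
    ext s
    rw [coeff_C]
    by_cases hs : 0 = s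
    · rw [if_pos hs, hs]
    · rw [if_neg hs]
      by_contra hc
      have h3 := h1 hc
      apply hs
      symm
      ext j
      by_contra hj
      have h4 : (1 : ℕ) ≤ Finsupp.weight (fun j : ℕ => j + 1) s := by
        rw [Finsupp.weight_apply, Finsupp.sum]
        refine le_trans ?_ (Finset.single_le_sum (f := fun j => s j • (j + 1))
          (fun i _ => Nat.zero_le _) (Finsupp.mem_support_iff.2 hj))
        have : 0 < s j := Nat.pos_of_ne_zero hj
        simp only [smul_eq_mul]
        nlinarith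
      omega
  have h3 := h.eps P0
  rw [h2] at h3 ⊢
  have h4 : ep (0 : K) (C (coeff 0 (b P0))) = coeff 0 (b P0) := by
    have h := (ep (0 : K)).commutes (coeff 0 (b P0))
    rw [MvPolynomial.algebraMap_eq] at h
    exact h
  rw [h4] at h3
  rw [h3, map_one]

theorem Bm_zero (q t : K) (a : Fin 0 → ℕ) : Bm q t 0 a = 1 := by
  rw [Bm, List.ofFn_zero, List.map_nil, List.prod_nil]

theorem Bm_succ (q t : K) (m : ℕ) (a : Fin (m + 1) → ℕ) :
    Bm q t (m + 1) a = BS q t (a 0) * Bm q t m (fun i => a i.succ) := by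
  rw [Bm, List.ofFn_succ, List.map_cons, List.prod_cons, Bm]

/-- the diagonal operator `h_y[1 - M B]` -/
noncomputable def Ly (q t : K) (b : Module.Basis Par K (Sy K)) (y : ℕ) : Module.End K (Sy K) :=
  dg b (fun μ => hc (fun j => 1 - Mj q t j * Ps q t μ j) y)

theorem Ly_zero (q t : K) (b : Module.Basis Par K (Sy K)) : Ly K q t b 0 = 1 := by
  rw [Ly]
  simp only [hc_zero]
  exact dg_one b

theorem Ly_BS (h1 : ST_CO K) {q t : K} (hG : Gn q t) {b : Module.Basis Par K (Sy K)}
    (hB : MB q t b) (y β : ℕ) :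
    Ly K q t b y * BS q t β
      = ∑ i ∈ range (y + 1), om q t i • (BS q t (β + i) * Ly K q t b (y - i)) := by
  have hL : ∀ y, Ly K q t b y
      = dg b (fun μ => hc (fun j => -(Mj q t j) * Ps q t μ j + 1) y) := by
    intro y
    rw [Ly]
    congr 1
    funext μ
    congr 1
    funext j
    ring
  have h2 : ∀ s, Ly K q t b y * Bn q t s
      = ∑ i ∈ range (y + 1), om q t i • (Bn q t (s + i) * Ly K q t b (y - i)) := by
    intro s
    have h3 := h1 q t hG b hB (fun j => -(Mj q t j)) (fun _ => 1) y s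
    simp only [← hL] at h3
    exact h3
  rcases Nat.eq_zero_or_pos β with rfl | hβ
  · rw [BS, if_pos rfl, mul_sub, mul_one, h2 0, Finset.sum_range_succ', Finset.sum_range_succ',
      om_zero, one_smul, one_smul, zero_add, BS, if_pos rfl, sub_mul, one_mul, Nat.sub_zero,
      add_sub_assoc]
    congr 1
  · have h3 : ∀ i, BS q t (β + i) = Bn q t (β + i) := fun i => by
      rw [BS, if_neg (by omega)]
    have h4 : BS q t β = Bn q t β := by rw [BS, if_neg (by omega)]
    simp only [h3, h4]
    exact h2 β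

/-- `G m a y` is the sum over all compositions of `y` -/
noncomputable def GG12 (q t : K) (m : ℕ) (a : Fin m → ℕ) (y : ℕ) : Sy K :=
  ∑ j ∈ piAntidiag (univ : Finset (Fin m)) y,
    (∏ i, om q t (j i)) • Bm q t m (fun i => a i + j i) 1

theorem GG12_succ (q t : K) (m : ℕ) (a : Fin (m + 1) → ℕ) (y : ℕ) :
    GG12 K q t (m + 1) a y = ∑ p ∈ antidiagonal y,
      om q t p.1 • BS q t (a 0 + p.1) (GG12 K q t m (fun i => a i.succ) p.2) := by
  rw [GG12, piA_succ]
  refine Finset.sum_congr rfl fun p _ => ?_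
  rw [GG12, map_sum, Finset.smul_sum]
  refine Finset.sum_congr rfl fun j _ => ?_
  rw [Fin.prod_univ_succ, Bm_succ, Module.End.mul_apply, map_smul, smul_smul]
  simp only [Fin.cons_zero, Fin.cons_succ]

theorem piA_fin0 (y : ℕ) : piAntidiag (univ : Finset (Fin 0)) y = if y = 0 then {0} else ∅ := by
  rw [show (univ : Finset (Fin 0)) = ∅ from Finset.univ_eq_empty]
  exact piAntidiag_empty y

theorem Ly_Bm (h1 : ST_CO K) {q t : K} (hG : Gn q t) {b : Module.Basis Par K (Sy K)}
    (hB : MB q t b) (m : ℕ) : ∀ (y : ℕ) (a : Fin m → ℕ),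
    Ly K q t b y (Bm q t m a 1) = ∑ y' ∈ range (y + 1), GG12 K q t m a y' := by
  induction m with
  | zero =>
    intro y a
    rw [Bm_zero, Module.End.one_apply]
    have h2 : Ly K q t b y 1 = 1 := by
      have h3 := b_P0 K hB.toIsE
      rw [← h3, Ly, dg_apply_basis]
      simp only [Ps_P0, mul_zero, sub_zero]
      have h : (fun _ : ℕ => (1 : K)) = fun j => ((1 : K) ^ (j + 1)) := by
        funext j; simp
      rw [h, hc_geom]
      simp
    rw [h2, Finset.sum_eq_single 0]
    · rw [GG12, piA_fin0, if_pos rfl, Finset.sum_singleton, Bm_zero]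
      simp
    · intro y' _ hy'
      rw [GG12, piA_fin0, if_neg hy', Finset.sum_empty]
    · intro h
      exact absurd (mem_range.2 (by omega)) h
  | succ m ih =>
    intro y a
    rw [Bm_succ, Module.End.mul_apply, ← Module.End.mul_apply, Ly_BS K h1 hG hB,
      LinearMap.sum_apply]
    simp only [GG12_succ]
    have h3 : ∑ Y ∈ range (y + 1), ∑ p ∈ antidiagonal Y,
        om q t p.1 • BS q t (a 0 + p.1) (GG12 K q t m (fun i => a i.succ) p.2)
        = ∑ i ∈ range (y + 1), ∑ y' ∈ range (y + 1 - i),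
          om q t i • BS q t (a 0 + i) (GG12 K q t m (fun i => a i.succ) y') := by
      rw [← Finset.sum_range_diag_flip]
      refine Finset.sum_congr rfl fun Y _ => ?_
      rw [Finset.Nat.sum_antidiagonal_eq_sum_range_succ_mk]
    rw [h3]
    refine Finset.sum_congr rfl fun i hi => ?_
    rw [mem_range] at hi
    rw [LinearMap.smul_apply, Module.End.mul_apply, ih, map_sum, Finset.smul_sum,
      show y - i + 1 = y + 1 - i by omega]

theorem st_BT (h1 : ST_PP K) (h2 : ST_CO K) : ST_BT K := by
  intro q t hG b hB m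
  induction m with
  | zero =>
    intro a
    rw [Bm_zero, Module.End.one_apply, map_one, tp]
  | succ m ih =>
    intro a
    rw [Bm_succ, Module.End.mul_apply, tp]
    rcases Nat.eq_zero_or_pos (a 0) with ha | ha
    · rw [ha, BS, if_pos rfl, LinearMap.sub_apply, Bn, mu_apply, Module.End.one_apply, map_sub,
        map_mul]
      have h3 : ep (0 : K) (X 0) = 1 := by simp [ep, ev]
      rw [h3, one_mul, sub_self]
      simp
    · obtain ⟨s, hs⟩ : ∃ s, a 0 = s + 1 := ⟨a 0 - 1, by omega⟩
      rw [hs, BS, if_neg (by omega), h1 q t hG b hB s]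
      have h4 := Ly_Bm K h2 hG hB m s (fun i => a i.succ)
      rw [Ly] at h4
      rw [h4, map_sum]
      have h5 : (((s + 1 : ℕ) : ℤ) - 1 + 1).toNat = s + 1 := by omega
      rw [h5]
      refine Finset.sum_congr rfl fun y _ => ?_
      rw [GG12, map_sum]
      refine Finset.sum_congr rfl fun j _ => ?_
      rw [map_smul, smul_eq_mul, ih]
      congr 2
      funext i
      push_cast
      ring

end TH12
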